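import Pool.Agent.Lib.MP_60b32f_nt.FewPrimes
import Pool.Agent.Lib.MP_60b32f_nt.Top

namespace Pool.Agent.Results.MP_60b32f_nt.Unbounded

open Finset

/-- The partitions of `n` into distinct primes, as finite sets of primes with sum `n`. -/
def primePartitions (n : ℕ) : Finset (Finset ℕ) :=
  (range (n + 1)).powerset.filter (fun S => (∀ p ∈ S, p.Prime) ∧ ∑ p ∈ S, p = n)

/-- The largest number of parts of a partition of `n` into distinct primes. -/
def maxParts (n : ℕ) : ℕ := (primePartitions n).sup Finset.card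

/-- `S` is the partition of `n` into distinct primes with the largest product. -/
def IsBest (n : ℕ) (S : Finset ℕ) : Prop :=
  S ∈ primePartitions n ∧ ∀ T ∈ primePartitions n, T ≠ S → ∏ p ∈ T, p < ∏ p ∈ S, p

theorem mem_primePartitions {n : ℕ} {S : Finset ℕ} :
    S ∈ primePartitions n ↔ (∀ p ∈ S, p.Prime) ∧ ∑ p ∈ S, p = n := by
  unfold primePartitions
  rw [mem_filter, mem_powerset]
  constructor
  · rintro ⟨_, h⟩; exact h
  · intro h
    refine ⟨?_, h⟩
    intro p hp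
    have : p ≤ ∑ r ∈ S, r := single_le_sum (f := fun r => r) (fun _ _ => Nat.zero_le _) hp
    rw [mem_range]
    omega

theorem prod_injective {S T : Finset ℕ} (hS : ∀ p ∈ S, p.Prime) (hT : ∀ p ∈ T, p.Prime)
    (h : ∏ p ∈ S, p = ∏ p ∈ T, p) : S = T := by
  have h1 := Nat.primeFactors_prod hS
  have h2 := Nat.primeFactors_prod hT
  rw [← h1, ← h2, h]

/-- For every `C` there is an `n` whose partition into distinct primes of largest product has
more than `C` parts fewer than the largest possible number of parts. -/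
theorem result : ∀ C : ℕ, ∃ n : ℕ, 2 ≤ n ∧ ∃ S : Finset ℕ, IsBest n S ∧ C < maxParts n - S.card := by
  intro C
  obtain ⟨h, hfew⟩ := Pool.Agent.Lib.MP_60b32f_nt.few_primes
  obtain ⟨s, R, hR, hRcard⟩ := Pool.Agent.Lib.MP_60b32f_nt.chain (h + C + 4)
  obtain ⟨⟨hR1, hR2⟩, hmin⟩ := id hR
  obtain ⟨x, hsx, htop⟩ := Pool.Agent.Lib.MP_60b32f_nt.top hR
  have hs7 : 7 ≤ s := by
    have h1 : ∑ r ∈ R, 2 ≤ ∑ r ∈ R, r := sum_le_sum (fun r hr => (hR1 r hr).two_le)
    rw [sum_const, smul_eq_mul, hRcard] at h1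
    omega
  obtain ⟨R1, hR11, hR12, hR13⟩ := hfew s hs7
  set P := Pool.Agent.Lib.MP_60b32f_nt.pr x with hP
  have hsub : ∀ T : Finset ℕ, (∀ p ∈ T, p.Prime) → ∑ p ∈ T, p = s → T ⊆ P := by
    intro T hT1 hT2 p hp
    rw [hP, Pool.Agent.Lib.MP_60b32f_nt.mem_pr]
    refine ⟨?_, hT1 p hp⟩
    have : p ≤ ∑ r ∈ T, r := single_le_sum (f := fun r => r) (fun _ _ => Nat.zero_le _) hp
    omega
  have hRP := hsub R hR1 hR2
  have hR1P := hsub R1 hR11 hR12
  have hPprime : ∀ p ∈ P, p.Prime := fun p hp => (Pool.Agent.Lib.MP_60b32f_nt.mem_pr.1 hp).2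
  have hsumR : ∑ p ∈ P \ R, p + ∑ p ∈ R, p = ∑ p ∈ P, p := sum_sdiff hRP
  have hsumR1 : ∑ p ∈ P \ R1, p + ∑ p ∈ R1, p = ∑ p ∈ P, p := sum_sdiff hR1P
  obtain ⟨n, hn⟩ : ∃ n, n = ∑ p ∈ P \ R, p := ⟨_, rfl⟩
  have hS : P \ R ∈ primePartitions n :=
    mem_primePartitions.2 ⟨fun p hp => hPprime p (mem_sdiff.1 hp).1, hn.symm⟩
  have hT : P \ R1 ∈ primePartitions n :=
    mem_primePartitions.2 ⟨fun p hp => hPprime p (mem_sdiff.1 hp).1, by omega⟩
  have hbest : IsBest n (P \ R) := by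
    refine ⟨hS, fun T hT hne => ?_⟩
    rw [mem_primePartitions] at hT
    have h1 := htop n (by omega) T hT
    refine lt_of_le_of_ne h1 (fun h2 => hne ?_)
    exact prod_injective hT.1 (mem_primePartitions.1 hS).1 h2
  have hcS : (P \ R).card = P.card - R.card := card_sdiff_of_subset hRP
  have hcT : (P \ R1).card = P.card - R1.card := card_sdiff_of_subset hR1P
  have hcR : R.card ≤ P.card := card_le_card hRP
  have hmax : (P \ R1).card ≤ maxParts n := le_sup (f := Finset.card) hT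
  refine ⟨n, ?_, P \ R, hbest, by omega⟩
  -- `P \ R1` is nonempty, so its sum is at least two
  have hne : (P \ R1).Nonempty := by
    rw [← card_pos]
    omega
  obtain ⟨p, hp⟩ := hne
  have h3 : p ≤ ∑ r ∈ P \ R1, r :=
    single_le_sum (f := fun r => r) (fun _ _ => Nat.zero_le _) hp
  have h4 := (hPprime p (mem_sdiff.1 hp).1).two_le
  omega

end Pool.Agent.Results.MP_60b32f_nt.Unbounded
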